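import Mathlib
import Pool.Agent.T6.H7.PF.Defs

set_option autoImplicit false

namespace Pool.Agent.T6.H84.PF

open scoped BigOperators Pointwise
open Pool.Agent.T6.H7.PF

/-- finiteness of sections -/
theorem sec_fin {n : ℕ} {L : AddSubgroup (E n)} (hL : FinBalls L) (V : Submodule ℝ (E n)) :
    FinBalls (sec L V) := by
  intro r
  refine (hL r).subset ?_
  rintro x ⟨hx, hr⟩
  exact ⟨hx.1, hr⟩

theorem cnt_mono {n : ℕ} {L : AddSubgroup (E n)} (hL : FinBalls L) {r s : ℝ} (h : r ≤ s) :
    cnt L r ≤ cnt L s := by
  unfold cnt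
  exact Set.ncard_le_ncard (fun x hx => ⟨hx.1, hx.2.trans h⟩) (hL s)

open Classical in
/-- the points of a progression in a ball: cosets of `V` -/
theorem prog_cosets {n : ℕ} {L : AddSubgroup (E n)} (hL : FinBalls L) (R : ℝ)
    (V : Submodule ℝ (E n)) {d : ℕ} (a : E n) (v : Fin d → E n) (N : Fin d → ℕ) :
    (bal L R ∩ prog a v N).ncard ≤
      (∏ i, if v i ∈ V then 1 else N i) * cnt (sec L V) (2 * R) := by
  have hfin : (bal L R ∩ prog a v N).Finite := (hL R).subset Set.inter_subset_left
  set s : Finset (E n) := hfin.toFinset with hs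
  have hcard : (bal L R ∩ prog a v N).ncard = s.card := Set.ncard_eq_toFinset_card _ hfin
  rw [hcard]
  set f : E n → (E n ⧸ V) := fun x => V.mkQ x with hf
  have h1 : s.card ≤ cnt (sec L V) (2 * R) * (s.image f).card := by
    refine Finset.card_le_mul_card_image s _ ?_
    intro b hb
    obtain ⟨x0, hx0, rfl⟩ := Finset.mem_image.1 hb
    unfold cnt
    rw [← Set.ncard_coe_finset]
    refine Set.ncard_le_ncard_of_injOn (fun x => x - x0) ?_ ?_ (sec_fin hL V (2 * R))
    · intro x hx
      rw [Finset.mem_coe, Finset.mem_filter] at hx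
      have hxs := hx.1
      rw [hs, Set.Finite.mem_toFinset] at hxs hx0
      have hx2 : x - x0 ∈ V := by
        have := hx.2
        simp only [hf, Submodule.mkQ_apply] at this
        exact (Submodule.Quotient.eq V).1 this
      refine ⟨⟨L.sub_mem hxs.1.1 hx0.1.1, hx2⟩, ?_⟩
      calc ‖x - x0‖ ≤ ‖x‖ + ‖x0‖ := norm_sub_le _ _
        _ ≤ R + R := add_le_add hxs.1.2 hx0.1.2
        _ = 2 * R := by ring
    · intro x _ y _ hxy
      simpa using hxy
  have h2 : (s.image f).card ≤ ∏ i, if v i ∈ V then 1 else N i := by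
    set P : Finset (Fin d → ℕ) :=
      Fintype.piFinset (fun i => if v i ∈ V then {0} else Finset.range (N i)) with hP
    have hPc : P.card = ∏ i, if v i ∈ V then 1 else N i := by
      rw [hP, Fintype.card_piFinset]
      refine Finset.prod_congr rfl fun i _ => ?_
      split_ifs <;> simp
    rw [← hPc]
    have hsub : s.image f ⊆ P.image (fun k => f (a + ∑ i, k i • v i)) := by
      intro b hb
      obtain ⟨x, hx, rfl⟩ := Finset.mem_image.1 hb
      rw [hs, Set.Finite.mem_toFinset] at hx
      obtain ⟨k, hk, rfl⟩ := hx.2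
      refine Finset.mem_image.2 ⟨fun i => if v i ∈ V then 0 else k i, ?_, ?_⟩
      · rw [hP, Fintype.mem_piFinset]
        intro i
        by_cases hi : v i ∈ V
        · simp [hi]
        · simp [hi, hk i]
      · simp only [hf, Submodule.mkQ_apply]
        rw [Submodule.Quotient.eq]
        have : (a + ∑ i, (if v i ∈ V then 0 else k i) • v i) - (a + ∑ i, k i • v i) =
            - ∑ i, (if v i ∈ V then k i • v i else 0) := by
          rw [add_sub_add_left_eq_sub, ← Finset.sum_sub_distrib, ← Finset.sum_neg_distrib]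
          refine Finset.sum_congr rfl fun i _ => ?_
          split_ifs <;> simp
        rw [this]
        refine V.neg_mem (V.sum_mem fun i _ => ?_)
        split_ifs with hi
        · exact V.nsmul_mem hi _
        · exact V.zero_mem
    exact (Finset.card_le_card hsub).trans Finset.card_image_le
  calc s.card ≤ cnt (sec L V) (2 * R) * (s.image f).card := h1
    _ ≤ cnt (sec L V) (2 * R) * (∏ i, if v i ∈ V then 1 else N i) := Nat.mul_le_mul_left _ h2
    _ = _ := Nat.mul_comm _ _

/-- extraction of independent vectors -/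
theorem extract {W : Type*} [AddCommGroup W] [Module ℝ W] [FiniteDimensional ℝ W] {ι : Type*}
    [DecidableEq ι] (v : ι → W) (S : Finset ι) (m : ℕ)
    (hm : m ≤ Module.finrank ℝ (Submodule.span ℝ (v '' (S : Set ι)))) :
    ∃ J ⊆ S, J.card = m ∧ LinearIndepOn ℝ v (J : Set ι) := by
  classical
  induction m with
  | zero => exact ⟨∅, Finset.empty_subset _, rfl, by simp⟩
  | succ m ih =>
    obtain ⟨J, hJS, hJc, hJ⟩ := ih (by omega)
    have hlt : Module.finrank ℝ (Submodule.span ℝ (v '' (J : Set ι))) ≤ m := by
      rw [← hJc, ← Finset.coe_image]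
      exact (finrank_span_finset_le_card _).trans Finset.card_image_le
    have hex : ∃ i ∈ S, v i ∉ Submodule.span ℝ (v '' (J : Set ι)) := by
      by_contra hcon
      push Not at hcon
      have hle : Submodule.span ℝ (v '' (S : Set ι)) ≤ Submodule.span ℝ (v '' (J : Set ι)) := by
        rw [Submodule.span_le]
        rintro _ ⟨i, hi, rfl⟩
        exact hcon i hi
      have := Submodule.finrank_mono hle
      omega
    obtain ⟨i, hiS, hi⟩ := hex
    have hiJ : i ∉ J := fun h => hi (Submodule.subset_span ⟨i, h, rfl⟩)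
    refine ⟨insert i J, Finset.insert_subset hiS hJS, ?_, ?_⟩
    · rw [Finset.card_insert_of_notMem hiJ, hJc]
    · rw [Finset.coe_insert]
      exact hJ.insert hi

/-- the rotation of the coordinates in `T` -/
def rot {d : ℕ} (N : Fin d → ℕ) (T : Finset (Fin d)) (k : Fin d → ℕ) : Fin d → ℕ :=
  fun i => if i ∈ T then (k i + 1) % N i else k i

theorem rot_count {d : ℕ} (N : Fin d → ℕ) (hN : ∀ i, 0 < N i) (T : Finset (Fin d))
    (g : (Fin d → ℕ) → Prop) [DecidablePred g] :
    ((Fintype.piFinset (fun i => Finset.range (N i))).filter g).card ≤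
      ((Fintype.piFinset (fun i => Finset.range (N i))).filter (fun j => g (rot N T j))).card := by
  classical
  set S := Fintype.piFinset (fun i => Finset.range (N i)) with hS
  have hmem : ∀ k, k ∈ S ↔ ∀ i, k i < N i := by
    intro k; rw [hS, Fintype.mem_piFinset]; simp
  have hmaps : ∀ k ∈ S, rot N T k ∈ S := by
    intro k hk
    rw [hmem] at hk ⊢
    intro i
    unfold rot
    split_ifs
    · exact Nat.mod_lt _ (hN i)
    · exact hk i
  have hinj : Set.InjOn (rot N T) S := by
    intro k hk l hl hkl
    rw [Finset.mem_coe, hmem] at hk hl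
    funext i
    have := congrFun hkl i
    unfold rot at this
    split_ifs at this with hi
    · have h1 : k i ≡ l i [MOD N i] := Nat.ModEq.add_right_cancel' 1 this
      exact Nat.ModEq.eq_of_lt_of_lt h1 (hk i) (hl i)
    · exact this
  have himg : S.image (rot N T) = S := by
    refine Finset.eq_of_subset_of_card_le ?_ ?_
    · intro x hx
      obtain ⟨k, hk, rfl⟩ := Finset.mem_image.1 hx
      exact hmaps k hk
    · rw [Finset.card_image_of_injOn hinj]
  calc (S.filter g).card = ((S.image (rot N T)).filter g).card := by rw [himg]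
    _ = ((S.filter (fun j => g (rot N T j))).image (rot N T)).card := by
        rw [Finset.filter_image]
    _ ≤ _ := Finset.card_image_le

/-- averaging over the rotations -/
theorem rot_avg {d : ℕ} (N : Fin d → ℕ) (hN : ∀ i, 0 < N i) (U : Finset (Fin d))
    (g : (Fin d → ℕ) → Prop) [DecidablePred g] :
    ∃ j : Fin d → ℕ, (∀ i, j i < N i) ∧
      2 ^ U.card * ((Fintype.piFinset (fun i => Finset.range (N i))).filter g).card ≤
      (∏ i, N i) * (U.powerset.filter (fun T => g (rot N T j))).card := by
  classical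
  set S := Fintype.piFinset (fun i => Finset.range (N i)) with hS
  have hmem : ∀ k, k ∈ S ↔ ∀ i, k i < N i := by
    intro k; rw [hS, Fintype.mem_piFinset]; simp
  have hSc : S.card = ∏ i, N i := by
    rw [hS, Fintype.card_piFinset]; simp
  have hSne : S.Nonempty := ⟨fun _ => 0, (hmem _).2 fun i => hN i⟩
  obtain ⟨j, hj, hmax⟩ := S.exists_max_image
    (fun j => (U.powerset.filter (fun T => g (rot N T j))).card) hSne
  refine ⟨j, (hmem j).1 hj, ?_⟩
  have h1 : 2 ^ U.card * (S.filter g).card ≤
      ∑ T ∈ U.powerset, (S.filter (fun j => g (rot N T j))).card := by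
    rw [← Finset.card_powerset, ← smul_eq_mul, ← Finset.sum_const]
    exact Finset.sum_le_sum fun T _ => rot_count N hN T g
  have h2 : ∑ T ∈ U.powerset, (S.filter (fun j => g (rot N T j))).card =
      ∑ j ∈ S, (U.powerset.filter (fun T => g (rot N T j))).card := by
    simp_rw [Finset.card_filter]
    exact Finset.sum_comm
  rw [h2] at h1
  refine h1.trans ?_
  rw [← hSc, ← smul_eq_mul, ← Finset.sum_const]
  exact Finset.sum_le_sum fun k hk => hmax k hk

end Pool.Agent.T6.H84.PF
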