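import Mathlib
import Pool.Agent.T6.H7.PF.Defs
import Pool.Agent.T6.H84.PF.H2a

set_option autoImplicit false

namespace Pool.Agent.T6.H84.PF

open scoped BigOperators Pointwise
open Pool.Agent.T6.H7.PF

open Classical in
/-- the greedy choice of the families -/
theorem greedy {W : Type*} [AddCommGroup W] [Module ℝ W] [FiniteDimensional ℝ W] {d : ℕ}
    (v : Fin d → W) (N : Fin d → ℕ) (hN : ∀ i, 1 ≤ N i) (m q : ℕ) (B : ℝ) (hB1 : 1 ≤ B)
    (hB : ∀ V : Submodule ℝ W, Module.finrank ℝ V ≤ m →
      (∏ i, if v i ∈ V then (N i : ℝ) else 1) ≤ B)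
    (hbig : B ^ (q + 1) < ∏ i, (N i : ℝ)) :
    ∃ J : ℕ → Finset (Fin d), ∀ t < q, (J t).card = m ∧
      LinearIndepOn ℝ v (J t : Set (Fin d)) ∧ (∀ i ∈ J t, 2 ≤ N i) ∧
      ∀ t' < t, Disjoint (J t) (J t') := by
  have hN1 : ∀ i, (1 : ℝ) ≤ N i := fun i => by exact_mod_cast hN i
  have key : ∀ l ≤ q, ∃ J : ℕ → Finset (Fin d), (∀ t < l, (J t).card = m ∧
      LinearIndepOn ℝ v (J t : Set (Fin d)) ∧ (∀ i ∈ J t, 2 ≤ N i) ∧
      ∀ t' < t, Disjoint (J t) (J t')) ∧
      ∏ i, (N i : ℝ) ≤ B ^ l * ∏ i, if (∀ t < l, v i ∉ Submodule.span ℝ (v '' (J t : Set (Fin d))))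
        then (N i : ℝ) else 1 := by
    intro l
    induction l with
    | zero =>
      intro _
      refine ⟨fun _ => ∅, by simp, ?_⟩
      simp
    | succ l ih =>
      intro hl
      obtain ⟨J, hJ, hprod⟩ := ih (by omega)
      set S : Finset (Fin d) := Finset.univ.filter (fun i =>
        (∀ t < l, v i ∉ Submodule.span ℝ (v '' (J t : Set (Fin d)))) ∧ 2 ≤ N i) with hS
      set V := Submodule.span ℝ (v '' (S : Set (Fin d))) with hV
      have hfr : m < Module.finrank ℝ V := by
        by_contra hcon
        push Not at hcon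
        have h1 := hB V hcon
        have h2 : (∏ i, if (∀ t < l, v i ∉ Submodule.span ℝ (v '' (J t : Set (Fin d))))
            then (N i : ℝ) else 1) ≤ ∏ i, if v i ∈ V then (N i : ℝ) else 1 := by
          refine Finset.prod_le_prod (fun i _ => ?_) (fun i _ => ?_)
          · split_ifs <;> positivity
          · split_ifs with ha hb hb
            · exact le_rfl
            · by_contra hcon2
              push Not at hcon2
              have hNi : 2 ≤ N i := by
                by_contra h3
                have : N i = 1 := by have := hN i; omega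
                rw [this] at hcon2
                norm_num at hcon2
              exact hb (Submodule.subset_span ⟨i, by
                rw [hS]; simp only [Finset.coe_filter, Finset.mem_univ, true_and]
                exact ⟨ha, hNi⟩, rfl⟩)
            · exact hN1 i
            · exact le_rfl
        have hB0 : 0 < B := by linarith
        have h3 : ∏ i, (N i : ℝ) ≤ B ^ (q + 1) := by
          calc ∏ i, (N i : ℝ) ≤ B ^ l * B :=
                hprod.trans (mul_le_mul_of_nonneg_left (h2.trans h1) (by positivity))
            _ = B ^ (l + 1) := by ring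
            _ ≤ B ^ (q + 1) := pow_le_pow_right₀ hB1 (by omega)
        linarith
      obtain ⟨Jl, hJlS, hJlc, hJli⟩ := extract v S m hfr.le
      refine ⟨Function.update J l Jl, ?_, ?_⟩
      · intro t ht
        rcases Nat.lt_succ_iff_lt_or_eq.1 ht with h | h
        · have hne : t ≠ l := by omega
          obtain ⟨h1, h2, h3, h4⟩ := hJ t h
          rw [Function.update_of_ne hne]
          refine ⟨h1, h2, h3, ?_⟩
          intro t' ht'
          rw [Function.update_of_ne (by omega)]
          exact h4 t' ht'
        · subst h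
          rw [Function.update_self]
          refine ⟨hJlc, hJli, ?_, ?_⟩
          · intro i hi
            have := hJlS hi
            rw [hS, Finset.mem_filter] at this
            exact this.2.2
          · intro t' ht'
            rw [Function.update_of_ne (by omega)]
            rw [Finset.disjoint_left]
            intro i hi hi'
            have := hJlS hi
            rw [hS, Finset.mem_filter] at this
            exact this.2.1 t' ht' (Submodule.subset_span ⟨i, hi', rfl⟩)
      · have hVl : Module.finrank ℝ (Submodule.span ℝ (v '' (Jl : Set (Fin d)))) ≤ m := by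
          rw [← hJlc, ← Finset.coe_image]
          exact (finrank_span_finset_le_card _).trans Finset.card_image_le
        have h1 := hB _ hVl
        have h2 : (∏ i, if (∀ t < l, v i ∉ Submodule.span ℝ (v '' (J t : Set (Fin d))))
            then (N i : ℝ) else 1) ≤
            (∏ i, if (∀ t < l + 1, v i ∉ Submodule.span ℝ
              (v '' ((Function.update J l Jl) t : Set (Fin d)))) then (N i : ℝ) else 1) *
            ∏ i, if v i ∈ Submodule.span ℝ (v '' (Jl : Set (Fin d))) then (N i : ℝ) else 1 := by
          rw [← Finset.prod_mul_distrib]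
          refine Finset.prod_le_prod (fun i _ => ?_) (fun i _ => ?_)
          · split_ifs <;> positivity
          · have hge1 : (1 : ℝ) ≤ if (∀ t < l + 1, v i ∉ Submodule.span ℝ
              (v '' ((Function.update J l Jl) t : Set (Fin d)))) then (N i : ℝ) else 1 := by
              split_ifs
              · exact hN1 i
              · exact le_rfl
            have hge2 : (1 : ℝ) ≤ if v i ∈ Submodule.span ℝ (v '' (Jl : Set (Fin d)))
                then (N i : ℝ) else 1 := by
              split_ifs
              · exact hN1 i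
              · exact le_rfl
            by_cases ha : ∀ t < l, v i ∉ Submodule.span ℝ (v '' (J t : Set (Fin d)))
            · rw [if_pos ha]
              by_cases hb : v i ∈ Submodule.span ℝ (v '' (Jl : Set (Fin d)))
              · rw [if_pos hb]
                have := hN1 i
                nlinarith
              · rw [if_neg hb, mul_one, if_pos]
                intro t ht
                rcases Nat.lt_succ_iff_lt_or_eq.1 ht with h | h
                · rw [Function.update_of_ne (by omega)]
                  exact ha t h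
                · subst h
                  rw [Function.update_self]
                  exact hb
            · rw [if_neg ha]
              nlinarith
        have hB0 : 0 < B := by linarith
        have hnn : (0 : ℝ) ≤ ∏ i, if (∀ t < l + 1, v i ∉ Submodule.span ℝ
              (v '' ((Function.update J l Jl) t : Set (Fin d)))) then (N i : ℝ) else 1 :=
          Finset.prod_nonneg fun i _ => by split_ifs <;> positivity
        calc ∏ i, (N i : ℝ) ≤ B ^ l * _ := hprod
          _ ≤ B ^ l * (_ * B) := mul_le_mul_of_nonneg_left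
              (h2.trans (mul_le_mul_of_nonneg_left h1 hnn)) (by positivity)
          _ = _ := by ring
  obtain ⟨J, hJ, _⟩ := key q le_rfl
  exact ⟨J, hJ⟩

/-- the integer combinations of independent vectors in `2 A - 2 A` -/
theorem comb_count {n : ℕ} {L : AddSubgroup (E n)} (hL : FinBalls L) (R : ℝ) {d : ℕ}
    [DecidableEq (E n)]
    (v : Fin d → E n) (hv : ∀ i, v i ∈ L) (c : Fin d → ℤ) (J : Finset (Fin d))
    (hJ : LinearIndepOn ℝ v (J : Set (Fin d))) (hc : ∀ i ∈ J, c i ≠ 0) (A : Finset (E n))
    (hA : ∀ x ∈ A, x ∈ bal L R) (D : Finset (J → ℤ))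
    (hD : ∀ e ∈ D, ∑ i : J, e i • (c i • v i) ∈ (A + A) - (A + A)) :
    D.card ≤ cnt (sec L (Submodule.span ℝ (v '' (J : Set (Fin d))))) (4 * R) := by
  unfold cnt
  rw [← Set.ncard_coe_finset]
  refine Set.ncard_le_ncard_of_injOn (fun e => ∑ i : J, e i • (c i • v i)) ?_ ?_
    (sec_fin hL _ (4 * R))
  · intro e he
    have h := hD e he
    obtain ⟨x, hx, y, hy, hxy⟩ := Finset.mem_sub.1 h
    obtain ⟨x1, hx1, x2, hx2, rfl⟩ := Finset.mem_add.1 hx
    obtain ⟨y1, hy1, y2, hy2, rfl⟩ := Finset.mem_add.1 hy
    have a1 := hA x1 hx1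
    have a2 := hA x2 hx2
    have a3 := hA y1 hy1
    have a4 := hA y2 hy2
    refine ⟨⟨?_, ?_⟩, ?_⟩
    · change (∑ i : J, e i • (c i • v i)) ∈ L
      exact L.sum_mem fun i _ => L.zsmul_mem (L.zsmul_mem (hv i) _) _
    · change (∑ i : J, e i • (c i • v i)) ∈ Submodule.span ℝ (v '' (J : Set (Fin d)))
      refine Submodule.sum_mem _ fun i _ => ?_
      have hmem : v i ∈ Submodule.span ℝ (v '' (J : Set (Fin d))) :=
        Submodule.subset_span ⟨i, i.2, rfl⟩
      exact zsmul_mem (zsmul_mem hmem _) _
    · rw [← hxy]
      calc ‖x1 + x2 - (y1 + y2)‖ ≤ ‖x1 + x2‖ + ‖y1 + y2‖ := norm_sub_le _ _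
        _ ≤ (‖x1‖ + ‖x2‖) + (‖y1‖ + ‖y2‖) := add_le_add (norm_add_le _ _) (norm_add_le _ _)
        _ ≤ (R + R) + (R + R) := add_le_add (add_le_add a1.2 a2.2) (add_le_add a3.2 a4.2)
        _ = 4 * R := by ring
  · intro e _ f _ hef
    have hli : LinearIndependent ℝ (fun i : J => v i) := hJ
    rw [Fintype.linearIndependent_iff] at hli
    have h0 : ∑ i : J, (((e i - f i) * c i : ℤ) : ℝ) • v i = 0 := by
      have hef' : ∑ i : J, e i • (c i • v i) = ∑ i : J, f i • (c i • v i) := hef
      have : ∑ i : J, (((e i - f i) * c i : ℤ) : ℝ) • v i =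
          ∑ i : J, e i • (c i • v i) - ∑ i : J, f i • (c i • v i) := by
        rw [← Finset.sum_sub_distrib]
        refine Finset.sum_congr rfl fun i _ => ?_
        rw [← sub_smul, smul_smul, Int.cast_smul_eq_zsmul]
      rw [this, hef', sub_self]
    have h1 := hli _ h0
    funext i
    have h2 := h1 i
    have h3 : (e i - f i) * c i = 0 := by exact_mod_cast h2
    rcases mul_eq_zero.1 h3 with h4 | h4
    · omega
    · exact absurd h4 (hc i i.2)

theorem add_count (hP : StmtP2) {n : ℕ} {L : AddSubgroup (E n)} (hL : FinBalls L) {R : ℝ}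
    (hR : 0 < R) [DecidableEq (E n)] (A : Finset (E n)) (hA : ∀ x, x ∈ A ↔ x ∈ bal L R) :
    ((A + A).card : ℝ) ≤ 5 ^ n * A.card := by
  have h1 := hP n L ⊤ (fun x _ => (Submodule.mem_top : x ∈ (⊤ : Submodule ℝ (E n)))) hL R hR
  rw [finrank_top, finrank_euclideanSpace_fin] at h1
  have h2 : (A + A).card ≤ cnt L (2 * R) := by
    unfold cnt
    rw [← Set.ncard_coe_finset]
    refine Set.ncard_le_ncard ?_ (hL _)
    intro x hx
    rw [Finset.mem_coe] at hx
    obtain ⟨y, hy, z, hz, rfl⟩ := Finset.mem_add.1 hx
    have a1 := (hA y).1 hy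
    have a2 := (hA z).1 hz
    refine ⟨L.add_mem a1.1 a2.1, ?_⟩
    calc ‖y + z‖ ≤ ‖y‖ + ‖z‖ := norm_add_le _ _
      _ ≤ R + R := add_le_add a1.2 a2.2
      _ = 2 * R := by ring
  have h3 : cnt L R = A.card := by
    unfold cnt
    rw [← Set.ncard_coe_finset]
    congr 1
    ext x
    rw [Finset.mem_coe]
    exact (hA x).symm
  rw [h3] at h1
  calc ((A + A).card : ℝ) ≤ (cnt L (2 * R) : ℝ) := by exact_mod_cast h2
    _ ≤ _ := h1

end Pool.Agent.T6.H84.PF
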