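import Mathlib
import Pool.Agent.T6.H7.PF.Defs
import Pool.Agent.T6.H84.PF.H2a
import Pool.Agent.T6.H84.PF.H2b

set_option autoImplicit false

/-!
Module H2 of project PF: no progression with `∏ N i ≤ exp (C n) |A|` meets `A` in
`exp (-C n) |A|` points.
-/

namespace Pool.Agent.T6.H84.PF

open scoped BigOperators Pointwise
open Pool.Agent.T6.H7.PF

theorem stmtH2 : StmtH1 → StmtP2 → StmtH2 := by
  classical
  intro hH1 hP2 C κ hC hκ
  -- the constants
  obtain ⟨s, hs⟩ : ∃ s : ℕ, Real.exp (2 * (8 * C + 6) / κ) < (2 : ℝ) ^ s :=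
    pow_unbounded_of_one_lt _ (by norm_num)
  have hlog : 2 * (8 * C + 6) / κ < Real.log (2 * 2 ^ s + 1) := by
    rw [Real.lt_log_iff_exp_lt (by positivity)]
    have : (0 : ℝ) < 2 ^ s := by positivity
    linarith
  refine ⟨C + (2 * C + 1) * ((2 : ℝ) ^ s + 1) + 1, max ⌈2 / κ⌉₊ 1, ?_⟩
  intro n L R hn hL hR hsec hbig d a v N ha hv hprod
  have hn1 : 1 ≤ n := le_trans (le_max_right _ _) hn
  have hnr : (1 : ℝ) ≤ n := by exact_mod_cast hn1
  have hκn : 2 ≤ κ * n := by
    have h1 : 2 / κ ≤ n := by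
      calc 2 / κ ≤ (⌈2 / κ⌉₊ : ℝ) := Nat.le_ceil _
        _ ≤ n := by exact_mod_cast le_trans (le_max_left _ _) hn
    rw [div_le_iff₀ hκ] at h1
    linarith
  set m := ⌊κ * n⌋₊ with hm
  have hmle : (m : ℝ) ≤ κ * n := Nat.floor_le (by linarith)
  have hmge : κ * n / 2 ≤ m := by
    have := Nat.lt_floor_add_one (κ * n)
    rw [← hm] at this
    linarith
  set X : ℝ := (cnt L R : ℝ) with hX
  have hX0 : 0 < X := lt_of_lt_of_le (Real.exp_pos _) hbig
  by_contra hcon
  push Not at hcon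
  set I : ℝ := ((bal L R ∩ prog a v N).ncard : ℝ) with hI
  have hI0 : 0 < I := lt_of_lt_of_le (by positivity) hcon
  -- all lengths are positive
  have hne : (bal L R ∩ prog a v N).Nonempty := by
    by_contra h
    rw [Set.not_nonempty_iff_eq_empty] at h
    rw [hI, h] at hI0
    simp at hI0
  have hN : ∀ i, 1 ≤ N i := by
    obtain ⟨x, _, k, hk, _⟩ := hne
    intro i
    have := hk i
    omega
  have hN1 : ∀ i, (1 : ℝ) ≤ N i := fun i => by exact_mod_cast hN i
  -- the counting function on parameters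
  set A : Finset (E n) := (hL R).toFinset with hA
  have hAmem : ∀ x, x ∈ A ↔ x ∈ bal L R := fun x => Set.Finite.mem_toFinset _
  have hAcard : (A.card : ℝ) = X := by
    rw [hX, hA]
    unfold cnt
    rw [Set.ncard_eq_toFinset_card _ (hL R)]
  set S := Fintype.piFinset (fun i => Finset.range (N i)) with hS
  have hScard : S.card = ∏ i, N i := by
    rw [hS, Fintype.card_piFinset]; simp
  have hIle : I ≤ (S.filter (fun k => a + ∑ i, k i • v i ∈ A)).card := by
    rw [hI]
    have h1 : (bal L R ∩ prog a v N) ⊆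
        (((S.filter (fun k => a + ∑ i, k i • v i ∈ A)).image
          (fun k => a + ∑ i, k i • v i) : Finset (E n)) : Set (E n)) := by
      rintro x ⟨hx, k, hk, rfl⟩
      rw [Finset.mem_coe, Finset.mem_image]
      refine ⟨k, ?_, rfl⟩
      rw [Finset.mem_filter, hS, Fintype.mem_piFinset]
      exact ⟨fun i => Finset.mem_range.2 (hk i), (hAmem _).2 hx⟩
    have h2 := Set.ncard_le_ncard h1 (Finset.finite_toSet _)
    rw [Set.ncard_coe_finset] at h2
    exact_mod_cast h2.trans Finset.card_image_le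
  have hfle : ((S.filter (fun k => a + ∑ i, k i • v i ∈ A)).card : ℝ) ≤ ∏ i, (N i : ℝ) := by
    have : (S.filter (fun k => a + ∑ i, k i • v i ∈ A)).card ≤ ∏ i, N i := by
      rw [← hScard]; exact Finset.card_filter_le _ _
    exact_mod_cast this
  have hprod' : ∏ i, (N i : ℝ) ≤ Real.exp (C * n) * X := by
    have := hprod
    push_cast at this
    exact this
  -- (a)
  set B : ℝ := Real.exp ((2 * C + 1) * n) with hBdef
  have hB1 : 1 ≤ B := Real.one_le_exp (by positivity)
  have hB : ∀ V : Submodule ℝ (E n), Module.finrank ℝ V ≤ m →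
      (∏ i, if v i ∈ V then (N i : ℝ) else 1) ≤ B := by
    intro V hV
    have hVr : (Module.finrank ℝ V : ℝ) ≤ κ * n := le_trans (by exact_mod_cast hV) hmle
    have h1 := prog_cosets hL R V a v N
    have h2 : (cnt (sec L V) (2 * R) : ℝ) ≤ Real.exp n := by
      have : cnt (sec L V) (2 * R) ≤ cnt (sec L V) (4 * R) :=
        cnt_mono (sec_fin hL V) (by linarith)
      calc (cnt (sec L V) (2 * R) : ℝ) ≤ (cnt (sec L V) (4 * R) : ℝ) := by exact_mod_cast this
        _ ≤ _ := hsec V hVr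
    set D1 : ℝ := ∏ i, if v i ∈ V then (1 : ℝ) else (N i : ℝ) with hD1
    set D2 : ℝ := ∏ i, if v i ∈ V then (N i : ℝ) else 1 with hD2
    have hD : D1 * D2 = ∏ i, (N i : ℝ) := by
      rw [hD1, hD2, ← Finset.prod_mul_distrib]
      refine Finset.prod_congr rfl fun i _ => ?_
      split_ifs <;> simp
    have hD1pos : 0 < D1 := by
      rw [hD1]
      refine Finset.prod_pos fun i _ => ?_
      split_ifs
      · norm_num
      · linarith [hN1 i]
    have h3 : I ≤ D1 * Real.exp n := by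
      have h4 : I ≤ D1 * (cnt (sec L V) (2 * R) : ℝ) := by
        rw [hI, hD1]
        have : ((bal L R ∩ prog a v N).ncard : ℝ) ≤
          (((∏ i, if v i ∈ V then 1 else N i) * cnt (sec L V) (2 * R) : ℕ) : ℝ) := by
          exact_mod_cast h1
        push_cast at this
        exact this
      exact h4.trans (mul_le_mul_of_nonneg_left h2 hD1pos.le)
    have h5 : D1 * D2 ≤ D1 * B := by
      rw [hD]
      calc ∏ i, (N i : ℝ) ≤ Real.exp (C * n) * X := hprod'
        _ = Real.exp (2 * C * n) * (Real.exp (-C * n) * X) := by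
            rw [← mul_assoc, ← Real.exp_add]; congr 2; ring
        _ ≤ Real.exp (2 * C * n) * (D1 * Real.exp n) :=
            mul_le_mul_of_nonneg_left (hcon.trans h3) (Real.exp_pos _).le
        _ = D1 * B := by
            rw [hBdef, show Real.exp (2 * C * n) * (D1 * Real.exp n) =
              D1 * (Real.exp (2 * C * n) * Real.exp n) by ring, ← Real.exp_add]
            congr 2; ring
    exact le_of_mul_le_mul_left h5 hD1pos
  -- (b)
  have hNbig : B ^ (2 ^ s + 1) < ∏ i, (N i : ℝ) := by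
    have h1 : Real.exp (((2 * C + 1) * ((2 : ℝ) ^ s + 1) + 1) * n) ≤ I := by
      calc Real.exp (((2 * C + 1) * ((2 : ℝ) ^ s + 1) + 1) * n) =
          Real.exp (-C * n) * Real.exp ((C + (2 * C + 1) * ((2 : ℝ) ^ s + 1) + 1) * n) := by
            rw [← Real.exp_add]; congr 1; ring
        _ ≤ Real.exp (-C * n) * X := mul_le_mul_of_nonneg_left hbig (Real.exp_pos _).le
        _ ≤ I := hcon
    have h2 : B ^ (2 ^ s + 1) < Real.exp (((2 * C + 1) * ((2 : ℝ) ^ s + 1) + 1) * n) := by
      rw [hBdef, ← Real.exp_nat_mul]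
      refine Real.exp_lt_exp.2 ?_
      push_cast
      nlinarith
    exact lt_of_lt_of_le h2 (h1.trans (hIle.trans hfle))
  obtain ⟨J, hJ⟩ := greedy v N hN m (2 ^ s) B hB1 hB hNbig
  set U := (Finset.range (2 ^ s)).biUnion J with hU
  have hdisj : ∀ t < 2 ^ s, ∀ t' < 2 ^ s, t ≠ t' → Disjoint (J t) (J t') := by
    intro t ht t' ht' hne'
    rcases lt_or_gt_of_ne hne' with h | h
    · exact ((hJ t' ht').2.2.2 t h).symm
    · exact (hJ t ht).2.2.2 t' h
  have hUcard : U.card = 2 ^ s * m := by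
    rw [hU, Finset.card_biUnion]
    · rw [Finset.sum_congr rfl (fun t ht => (hJ t (Finset.mem_range.1 ht)).1)]
      simp
    · intro t ht t' ht' hne'
      exact hdisj t (Finset.mem_range.1 ht) t' (Finset.mem_range.1 ht') hne'
  -- (c)
  obtain ⟨j, hj, havg⟩ := rot_avg N hN U (fun k => a + ∑ i, k i • v i ∈ A)
  set c : Fin d → ℤ := fun i => (((j i + 1) % N i : ℕ) : ℤ) - (j i : ℤ) with hc
  set y : E n := a + ∑ i, j i • v i with hy
  have hid : ∀ T : Finset (Fin d), a + ∑ i, rot N T j i • v i = y + ∑ i ∈ T, c i • v i := by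
    intro T
    rw [hy, add_assoc]
    congr 1
    rw [← Finset.sum_filter_add_sum_filter_not Finset.univ (fun i => i ∈ T)
      (fun i => rot N T j i • v i), ← Finset.sum_filter_add_sum_filter_not Finset.univ
      (fun i => i ∈ T) (fun i => j i • v i)]
    have e1 : ∑ i with i ∉ T, rot N T j i • v i = ∑ i with i ∉ T, j i • v i := by
      refine Finset.sum_congr rfl fun i hi => ?_
      rw [Finset.mem_filter] at hi
      unfold rot
      rw [if_neg hi.2]
    have e2 : ∑ i with i ∈ T, rot N T j i • v i =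
        ∑ i with i ∈ T, j i • v i + ∑ i ∈ T, c i • v i := by
      have hT : (Finset.univ.filter (fun i => i ∈ T)) = T := by ext i; simp
      rw [hT, ← Finset.sum_add_distrib]
      refine Finset.sum_congr rfl fun i hi => ?_
      unfold rot
      rw [if_pos hi, hc]
      simp only
      rw [sub_smul, natCast_zsmul, natCast_zsmul]
      abel
    rw [e1, e2]
    abel
  have hc0 : ∀ t < 2 ^ s, ∀ i ∈ J t, c i ≠ 0 := by
    intro t ht i hi h0
    have h2 := (hJ t ht).2.2.1 i hi
    have h3 := hj i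
    have h4 : (((j i + 1) % N i : ℕ) : ℤ) - (j i : ℤ) = 0 := h0
    have h5 : (j i + 1) % N i = j i := by omega
    rcases Nat.lt_or_ge (j i + 1) (N i) with h6 | h6
    · rw [Nat.mod_eq_of_lt h6] at h5; omega
    · have h7 : j i + 1 = N i := by omega
      rw [h7, Nat.mod_self] at h5
      omega
  set F : ℕ := (U.powerset.filter (fun T => y + ∑ i ∈ T, c i • v i ∈ A)).card with hF
  have havg' : 2 ^ U.card * (S.filter (fun k => a + ∑ i, k i • v i ∈ A)).card ≤
      (∏ i, N i) * F := by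
    rw [hF]
    simp_rw [← hid]
    exact havg
  have hA0 : (0 : E n) ∈ A := (hAmem 0).2 ⟨L.zero_mem, by simpa using hR.le⟩
  have hHal := hH1 (E n) A (Fin d) (fun i => c i • v i) s m ⌊Real.exp n⌋₊ J y ⟨0, hA0⟩ hdisj
    (fun t ht => (hJ t ht).1) (by
      intro t ht D hD
      refine Nat.le_floor ?_
      have h1 := comb_count hL R v hv c (J t) (hJ t ht).2.1 (hc0 t ht) A
        (fun x hx => (hAmem x).1 hx) D hD
      have h2 : (Module.finrank ℝ (Submodule.span ℝ (v '' (J t : Set (Fin d)))) : ℝ) ≤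
          κ * n := by
        refine le_trans ?_ hmle
        have : Module.finrank ℝ (Submodule.span ℝ (v '' (J t : Set (Fin d)))) ≤ m := by
          rw [← (hJ t ht).1, ← Finset.coe_image]
          exact (finrank_span_finset_le_card _).trans Finset.card_image_le
        exact_mod_cast this
      exact le_trans (by exact_mod_cast h1) (hsec _ h2))
  rw [← hU, ← hF] at hHal
  have hAA := add_count hP2 hL hR A hAmem
  rw [hAcard] at hAA hHal
  set W : ℝ := (2 * 2 ^ s + 1 : ℝ) ^ m with hW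
  -- the lower bound for F
  have hFr : (2 : ℝ) ^ (2 ^ s * m) * Real.exp (-(2 * C) * n) ≤ F := by
    have h1 : (2 : ℝ) ^ (2 ^ s * m) * (S.filter (fun k => a + ∑ i, k i • v i ∈ A)).card ≤
        (∏ i, (N i : ℝ)) * F := by
      rw [hUcard] at havg'
      exact_mod_cast havg'
    have h2 : (2 : ℝ) ^ (2 ^ s * m) * (Real.exp (-C * n) * X) ≤
        (Real.exp (C * n) * X) * F := by
      calc (2 : ℝ) ^ (2 ^ s * m) * (Real.exp (-C * n) * X) ≤
          (2 : ℝ) ^ (2 ^ s * m) * (S.filter (fun k => a + ∑ i, k i • v i ∈ A)).card :=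
            mul_le_mul_of_nonneg_left (hcon.trans hIle) (by positivity)
        _ ≤ (∏ i, (N i : ℝ)) * F := h1
        _ ≤ _ := mul_le_mul_of_nonneg_right hprod' (by positivity)
    have h3 : (Real.exp (C * n) * X) * ((2 : ℝ) ^ (2 ^ s * m) * Real.exp (-(2 * C) * n)) =
        (2 : ℝ) ^ (2 ^ s * m) * (Real.exp (-C * n) * X) := by
      rw [show (Real.exp (C * n) * X) * ((2 : ℝ) ^ (2 ^ s * m) * Real.exp (-(2 * C) * n)) =
        (2 : ℝ) ^ (2 ^ s * m) * ((Real.exp (C * n) * Real.exp (-(2 * C) * n)) * X) by ring,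
        ← Real.exp_add]
      congr 3
      ring
    rw [← h3] at h2
    exact le_of_mul_le_mul_left h2 (by positivity)
  -- conclusion
  have hM : ((⌊Real.exp n⌋₊ : ℕ) : ℝ) ≤ Real.exp n := Nat.floor_le (Real.exp_pos _).le
  have h16 : ((2 : ℝ) ^ (2 ^ s * m)) ^ 4 = 16 ^ (2 ^ s * m) := by
    rw [← pow_mul, mul_comm, pow_mul]; norm_num
  have hfin : Real.exp (-(8 * C) * n) * W ≤ 25 ^ n * Real.exp n ^ 2 := by
    have h1 : ((2 : ℝ) ^ (2 ^ s * m) * Real.exp (-(2 * C) * n)) ^ 4 * X ^ 2 * W ≤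
        (5 ^ n * X) ^ 2 * Real.exp n ^ 2 * 16 ^ (2 ^ s * m) := by
      calc ((2 : ℝ) ^ (2 ^ s * m) * Real.exp (-(2 * C) * n)) ^ 4 * X ^ 2 * W ≤
          (F : ℝ) ^ 4 * X ^ 2 * W := by gcongr
        _ ≤ _ := hHal
        _ ≤ _ := by gcongr
    have h2 : ((2 : ℝ) ^ (2 ^ s * m) * Real.exp (-(2 * C) * n)) ^ 4 * X ^ 2 * W =
        (16 ^ (2 ^ s * m) * X ^ 2) * (Real.exp (-(8 * C) * n) * W) := by
      rw [mul_pow, h16, ← Real.exp_nat_mul]
      have : ((4 : ℕ) : ℝ) * (-(2 * C) * n) = -(8 * C) * n := by push_cast; ring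
      rw [this]
      ring
    have h3 : (5 ^ n * X) ^ 2 * Real.exp n ^ 2 * 16 ^ (2 ^ s * m) =
        (16 ^ (2 ^ s * m) * X ^ 2) * (25 ^ n * Real.exp n ^ 2) := by
      have : (25 : ℝ) ^ n = (5 ^ n) ^ 2 := by
        rw [← pow_mul, mul_comm, pow_mul]; norm_num
      rw [this]
      ring
    rw [h2, h3] at h1
    exact le_of_mul_le_mul_left h1 (by positivity)
  have h25 : (25 : ℝ) ^ n ≤ Real.exp (4 * n) := by
    have h1 : (25 : ℝ) ≤ Real.exp 4 := by
      have h2 : Real.exp 4 = Real.exp 1 ^ 4 := by rw [← Real.exp_nat_mul]; norm_num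
      rw [h2]
      have h3 := Real.exp_one_gt_d9
      have h4 : (2.7 : ℝ) ^ 4 ≤ Real.exp 1 ^ 4 := by
        apply pow_le_pow_left₀ (by norm_num); linarith
      norm_num at h4
      linarith
    calc (25 : ℝ) ^ n ≤ Real.exp 4 ^ n := pow_le_pow_left₀ (by norm_num) h1 n
      _ = Real.exp (4 * n) := by rw [← Real.exp_nat_mul]; congr 1; ring
  have hWle : W ≤ Real.exp ((8 * C + 6) * n) := by
    have h1 : Real.exp (-(8 * C) * n) * W ≤
        Real.exp (-(8 * C) * n) * Real.exp ((8 * C + 6) * n) := by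
      calc Real.exp (-(8 * C) * n) * W ≤ 25 ^ n * Real.exp n ^ 2 := hfin
        _ ≤ Real.exp (4 * n) * Real.exp n ^ 2 := by gcongr
        _ = _ := by
          rw [← Real.exp_nat_mul, ← Real.exp_add, ← Real.exp_add]
          congr 1
          push_cast
          ring
    exact le_of_mul_le_mul_left h1 (Real.exp_pos _)
  have hWgt : Real.exp ((8 * C + 6) * n) < W := by
    have h1 : W = Real.exp (m * Real.log (2 * 2 ^ s + 1)) := by
      rw [hW, Real.exp_nat_mul, Real.exp_log (by positivity)]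
    rw [h1]
    refine Real.exp_lt_exp.2 ?_
    have h2 : 2 * (8 * C + 6) < Real.log (2 * 2 ^ s + 1) * κ := by
      rwa [div_lt_iff₀ hκ] at hlog
    have h3 : 0 < Real.log (2 * 2 ^ s + 1) := by
      refine lt_trans ?_ hlog
      positivity
    have h4 : κ * n / 2 * Real.log (2 * 2 ^ s + 1) ≤ m * Real.log (2 * 2 ^ s + 1) :=
      mul_le_mul_of_nonneg_right hmge h3.le
    nlinarith
  linarith

end Pool.Agent.T6.H84.PF
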